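import Pool.Agent.Helper36.HS.St

/-! # HS: module CF, closure of the initial segments of a chain -/

namespace Pool.Agent.Helper37.HS

open Ordinal Cardinal ZFSet Order Pool.Agent.Helper73.HODC Pool.Agent.Helper73.HE
open Pool.Agent.Helper73.HM Pool.Agent.Helper73.HU Pool.Agent.Helper73.HV Pool.Agent.Helper36.HS

theorem cof_reg {c : Cardinal.{0}} (hc : c.IsRegular) (hc' : ℵ₀ < c) : ℵ₀ < c.ord.cof := by
  rw [hc.cof_ord]; exact hc'

/-- closure under a function of two variables -/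
theorem cae_clo {c : Cardinal.{0}} (hc : c.IsRegular) (hc' : ℵ₀ < c)
    (m : Ordinal.{0} → Ordinal.{0} → Ordinal.{0})
    (hm : ∀ k < c.ord, ∀ l < c.ord, m k l < c.ord) :
    Pool.Agent.Helper36.HS.CAE c (fun i => ∀ k < i, ∀ l < i, m k l < i) := by
  have hl := isSuccLimit_of_cof (cof_reg hc hc')
  refine ⟨{i | ∀ k < i, i ∈ {j : Ordinal.{0} | ∀ l < j, j ∈ {z : Ordinal.{0} | m k l < z}}},
    Club.diag hc hc' (C := fun k => {j : Ordinal.{0} | ∀ l < j, j ∈ {z : Ordinal.{0} | m k l < z}})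
      (fun k hk => Club.diag hc hc' (C := fun l => {z : Ordinal.{0} | m k l < z})
      (fun l hl' => club_Ioi hl (hm k hk l hl'))), ?_⟩
  intro i hi _ k hk l hl'
  exact hi k hk l hl'

theorem cae_and {c : Cardinal.{0}} (hc : c.IsRegular) (hc' : ℵ₀ < c)
    {P Q : Ordinal.{0} → Prop} (hP : Pool.Agent.Helper36.HS.CAE c P) (hQ : Pool.Agent.Helper36.HS.CAE c Q) :
    Pool.Agent.Helper36.HS.CAE c (fun i => P i ∧ Q i) := by
  obtain ⟨C, hC, h1⟩ := hP
  obtain ⟨D, hD, h2⟩ := hQ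
  exact ⟨C ∩ D, hC.inter (cof_reg hc hc') hD, fun i hi hic => ⟨h1 i hi.1 hic, h2 i hi.2 hic⟩⟩

theorem cae_mono {c : Cardinal.{0}} {P Q : Ordinal.{0} → Prop} (hP : Pool.Agent.Helper36.HS.CAE c P)
    (h : ∀ i < c.ord, P i → Q i) : Pool.Agent.Helper36.HS.CAE c Q := by
  obtain ⟨C, hC, h1⟩ := hP
  exact ⟨C, hC, fun i hi hic => h i hic (h1 i hi hic)⟩

theorem cf1 : StCF1 := by
  intro c δ g h H hcδ
  have hc := H.reg
  have hc' := H.unc
  have hlim := isSuccLimit_of_cof (cof_reg hc hc')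
  have h0 : (0 : Ordinal.{0}) < c.ord := pos_of_cof (cof_reg hc hc')
  -- the index function
  have hidx : ∀ x : Ordinal.{0}, ∃ k < c.ord, x < δ → g k = x := by
    intro x
    by_cases hx : x < δ
    · obtain ⟨k, hk, hkx⟩ := H.gs x hx
      exact ⟨k, hk, fun _ => hkx⟩
    · exact ⟨0, h0, fun h' => absurd h' hx⟩
  choose ix hix hgix using hidx
  refine ⟨?_, ?_, ?_⟩
  · intro f
    refine cae_mono (cae_clo hc hc' (fun k l => ix (f (g k) (g l))) (fun k _ l _ => hix _)) ?_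
    rintro i - hi x ⟨k, hk, rfl⟩ y ⟨l, hl, rfl⟩ hf
    exact ⟨ix (f (g k) (g l)), hi k hk l hl, hgix _ hf⟩
  · refine cae_mono (cae_and hc hc' (cae_clo hc hc' (fun k _ => ix k) (fun k _ l _ => hix _))
      (cae_clo hc hc' (fun k _ => if g k < c.ord then g k else 0) (fun k _ l _ => ?_))) ?_
    · by_cases hk : g k < c.ord
      · simp only [if_pos hk]; exact hk
      · simp only [if_neg hk]; exact h0
    · rintro i hic ⟨h1, h2⟩ ξ hξ
      constructor
      · rintro ⟨k, hk, rfl⟩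
        have := h2 k hk k hk
        rwa [if_pos hξ] at this
      · intro hξi
        exact ⟨ix ξ, h1 ξ hξi ξ hξi, hgix _ (hξ.trans_le hcδ)⟩
  · -- the map `h`
    have hj : ∀ k : Ordinal.{0}, ∃ j < c.ord, k < c.ord → g k < h j := by
      intro k
      by_cases hk : k < c.ord
      · have h1 : g k < h c.ord := by rw [H.top]; exact H.gm k hk
        obtain ⟨j, hj, hgj⟩ := (H.nor.lt_iff_exists_lt hlim).mp h1
        exact ⟨j, hj, fun _ => hgj⟩
      · exact ⟨0, h0, fun h' => absurd h' hk⟩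
    choose j hjc hj using hj
    refine cae_mono (cae_and hc hc' (cae_clo hc hc' (fun k _ => j k) (fun k _ l _ => hjc k))
      (cae_clo hc hc' (fun k _ => ix (h k)) (fun k _ l _ => hix _))) ?_
    rintro i hic ⟨h1, h2⟩
    refine ⟨?_, ?_⟩
    · rintro x ⟨k, hk, rfl⟩
      exact (hj k (hk.trans hic)).trans (H.nor.strictMono (h1 k hk k hk))
    · intro b hb
      refine ⟨ix (h b), h2 b hb b hb, hgix _ ?_⟩
      rw [← H.top]
      exact H.nor.strictMono (hb.trans hic)

end Pool.Agent.Helper37.HS
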